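import Pool.Agent.R901.WR.A

/-!
The walk with switch - walk - switch steps, the switches being taken in a finite symmetric subset
`T` of an arbitrary lamp group `L`.
-/

open Finset Filter Topology
open scoped commutatorElement

namespace Pool.Agent.N75.LW

open Pool.Agent.R901.WR

variable {L : Type} [Group L]

/-- index of the nontrivial steps -/
abbrev SigT (T : Finset L) := T × (Fin 6 → Bool) × T

/-- the step -/
def stpT (T : Finset L) (x : SigT T) : Wr L (Fin 6 → ℤ) := Wr.sws x.1 (sgv x.2.1) x.2.2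

lemma stpT_inj (T : Finset L) : Function.Injective (stpT T) := by
  rintro ⟨a, ε, b⟩ ⟨a', ε', b'⟩ h
  obtain ⟨h1, h2, h3⟩ := Wr.sws_inj (sgv_ne_zero ε) h
  simp only [Prod.mk.injEq]
  exact ⟨Subtype.ext h1, sgv_inj h2, Subtype.ext h3⟩

lemma stpT_ne_one (T : Finset L) (x : SigT T) : stpT T x ≠ 1 := by
  intro h
  have := congrArg Wr.s h
  simp only [stpT, Wr.sws_s, Wr.one_s] at this
  exact sgv_ne_zero _ this

lemma stpT_inv (T : Finset L) (hT : ∀ x ∈ T, x⁻¹ ∈ T) (x : SigT T) :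
    (stpT T x)⁻¹ = stpT T (⟨_, hT _ x.2.2.2⟩, (fun j => !(x.2.1 j)), ⟨_, hT _ x.1.2⟩) := by
  unfold stpT
  rw [Wr.sws_inv]
  congr 1
  funext j
  have hb : ∀ b : Bool, -(sg b) = sg (!b) := by
    intro b
    cases b <;> simp [sg]
  exact hb _

/-- the walk with steps uniform on `S ∪ {1}` -/
noncomputable def DT (T : Finset L) : Pool.Agent.R901.WR.Dist (Wr L (Fin 6 → ℤ)) :=
  Pool.Agent.R901.WR.Dist.unif (ι := Option (SigT T)) (fun o => o.elim 1 (stpT T))

lemma card_sigT (T : Finset L) : Fintype.card (SigT T) = T.card ^ 2 * 64 := by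
  simp [Fintype.card_prod]
  ring

lemma DT_pos (T : Finset L) (F : (Fin 6 → ℤ) → ℝ) : (DT T).E (fun g => F g.s) =
    (1 - (Fintype.card (SigT T) : ℝ) / Fintype.card (Option (SigT T))) * F 0 +
      ((Fintype.card (SigT T) : ℝ) / Fintype.card (Option (SigT T))) *
        ((1 / 2 ^ 6) * ∑ ε : Fin 6 → Bool, F (sgv ε)) := by
  have hc : (Fintype.card (Option (SigT T)) : ℝ) = Fintype.card (SigT T) + 1 := by
    rw [Fintype.card_option]; push_cast; ring
  have h1 : (DT T).E (fun g => F g.s) = ∑ o : Option (SigT T),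
      (1 / (Fintype.card (Option (SigT T)) : ℝ)) *
        F (o.elim 1 (stpT T) : Wr L (Fin 6 → ℤ)).s := rfl
  rw [h1, ← Finset.mul_sum, Fintype.sum_option]
  simp only [Option.elim, Wr.one_s, stpT, Wr.sws_s]
  have h2 : ∑ x : SigT T, F (sgv x.2.1) = (T.card : ℝ) ^ 2 *
      ∑ ε : Fin 6 → Bool, F (sgv ε) := by
    rw [Fintype.sum_prod_type]
    simp only [Fintype.sum_prod_type, Finset.sum_const, Finset.card_univ, nsmul_eq_mul,
      ← Finset.mul_sum, Fintype.card_coe]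
    ring
  rw [h2, hc, card_sigT]
  push_cast
  field_simp
  ring

lemma DT_SL (T : Finset L) (n : ℕ) (t : ((DT T).pow n).ι) :
    Wr.SL (2 * n) (((DT T).pow n).st t) := by
  have h := Wr.SL.prod (m := 2) (List.ofFn fun k => (DT T).st (t k)) (by
    intro x hx
    rw [List.mem_ofFn] at hx
    obtain ⟨k, rfl⟩ := hx
    rcases h : t k with _ | a
    · exact Wr.SL.one.mono (by norm_num)
    · exact Wr.SL.sws _ _ _)
  rw [List.length_ofFn] at h
  exact h

lemma DT_anti (T : Finset L) (h1T : (1 : L) ∈ T) (n : ℕ) (v : Fin 6 → ℤ) :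
    ((DT T).pow n).E (fun g => if g.s = v then 1 else 0) ≤ 48 / ((n : ℝ) + 1) ^ 3 := by
  have hc : (Fintype.card (Option (SigT T)) : ℝ) = Fintype.card (SigT T) + 1 := by
    rw [Fintype.card_option]; push_cast; ring
  have h0 : (1 : ℝ) ≤ Fintype.card (SigT T) := by
    have : 0 < Fintype.card (SigT T) :=
      Fintype.card_pos_iff.2 ⟨(⟨1, h1T⟩, fun _ => true, ⟨1, h1T⟩)⟩
    exact_mod_cast this
  have h1 : (1 / 2 : ℝ) ≤ (Fintype.card (SigT T) : ℝ) / Fintype.card (Option (SigT T)) := by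
    rw [hc, div_le_div_iff₀ (by norm_num) (by linarith)]
    linarith
  have h2 : (Fintype.card (SigT T) : ℝ) / Fintype.card (Option (SigT T)) ≤ 1 := by
    rw [hc, div_le_one (by linarith)]
    linarith
  refine (anti (DT T) _ (by linarith) h2 (DT_pos T) n v).trans ?_
  have h3 : (1 / 8 : ℝ) ≤
      ((Fintype.card (SigT T) : ℝ) / Fintype.card (Option (SigT T))) ^ 3 := by
    calc (1 / 8 : ℝ) = (1 / 2) ^ 3 := by norm_num
      _ ≤ _ := by gcongr
  calc _ ≤ 6 / ((1 / 8) * ((n : ℝ) + 1) ^ 3) := by gcongr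
    _ = _ := by field_simp; norm_num

lemma DT_bound (T : Finset L) (h1T : (1 : L) ∈ T) (n : ℕ) :
    1 - (DT T).lawProb w5 n ≤ 3072 / ((n : ℝ) + 1) := by
  refine (w5_bound (DT T) n (2 * n) _ (DT_anti T h1T n) (DT_SL T n)).trans ?_
  push_cast
  have h : (0 : ℝ) ≤ n := by positivity
  rw [show (4 * (2 * (n : ℝ))) * ((4 * (2 * n)) * (48 / ((n : ℝ) + 1) ^ 3)) =
    3072 * (n : ℝ) ^ 2 / ((n : ℝ) + 1) ^ 3 by ring]
  rw [div_le_div_iff₀ (by positivity) (by positivity)]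
  have : (n : ℝ) ^ 2 ≤ ((n : ℝ) + 1) ^ 2 := by gcongr; linarith
  nlinarith [mul_nonneg h h]

lemma sws_as (T : Finset L) (h1T : (1 : L) ∈ T) (a : L) (ha : a ∈ T) :
    (Wr.lamp a : Wr L (Fin 6 → ℤ)) =
      stpT T (⟨a, ha⟩, (fun _ => true), ⟨1, h1T⟩) * (stpT T (⟨1, h1T⟩, (fun _ => true), ⟨1, h1T⟩))⁻¹ := by
  simp only [stpT, Wr.sws, Wr.lamp_one, mul_one, one_mul]
  group

end Pool.Agent.N75.LW
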