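import Pool.Agent.N75.LW.A

/-!
The lamp group: the subgroup of `SL(2, ℤ)` generated by two transvections; its powers do not
commute.
-/

open Finset Filter Topology
open scoped commutatorElement MatrixGroups

namespace Pool.Agent.N75.LW

open Pool.Agent.R901.WR

/-- the lamp group -/
abbrev SL2 := Matrix.SpecialLinearGroup (Fin 2) ℤ

/-- upper transvection -/
def up (k : ℤ) : SL2 := ⟨!![1, k; 0, 1], by simp [Matrix.det_fin_two]⟩
/-- lower transvection -/
def lo (k : ℤ) : SL2 := ⟨!![1, 0; k, 1], by simp [Matrix.det_fin_two]⟩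

lemma up_mul (k l : ℤ) : up k * up l = up (k + l) := by
  apply Matrix.SpecialLinearGroup.ext
  intro i j
  fin_cases i <;> fin_cases j <;> simp [up, Matrix.mul_apply, Fin.sum_univ_two, add_comm]

lemma lo_mul (k l : ℤ) : lo k * lo l = lo (k + l) := by
  apply Matrix.SpecialLinearGroup.ext
  intro i j
  fin_cases i <;> fin_cases j <;> simp [lo, Matrix.mul_apply, Fin.sum_univ_two, add_comm]

lemma up_zero : up 0 = 1 := by
  apply Matrix.SpecialLinearGroup.ext
  intro i j
  fin_cases i <;> fin_cases j <;> simp [up]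

lemma lo_zero : lo 0 = 1 := by
  apply Matrix.SpecialLinearGroup.ext
  intro i j
  fin_cases i <;> fin_cases j <;> simp [lo]

lemma up_pow (k : ℤ) (n : ℕ) : up k ^ n = up (n * k) := by
  induction n with
  | zero => simp [up_zero]
  | succ n ih => rw [pow_succ, ih, up_mul]; congr 1; push_cast; ring

lemma lo_pow (k : ℤ) (n : ℕ) : lo k ^ n = lo (n * k) := by
  induction n with
  | zero => simp [lo_zero]
  | succ n ih => rw [pow_succ, ih, lo_mul]; congr 1; push_cast; ring

lemma up_inv (k : ℤ) : (up k)⁻¹ = up (-k) := by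
  rw [inv_eq_iff_mul_eq_one, up_mul]; simp [up_zero]

lemma lo_inv (k : ℤ) : (lo k)⁻¹ = lo (-k) := by
  rw [inv_eq_iff_mul_eq_one, lo_mul]; simp [lo_zero]

lemma not_comm {m : ℕ} (hm : 0 < m) : up 1 ^ m * lo 1 ^ m ≠ lo 1 ^ m * up 1 ^ m := by
  intro h
  rw [up_pow, lo_pow] at h
  have h1 := congrArg (fun x : SL2 => x 0 0) h
  simp [up, lo, Matrix.mul_apply, Fin.sum_univ_two] at h1
  omega

/-- the switches -/
def TT : Finset SL2 := {1, up 1, up (-1), lo 1, lo (-1)}

lemma TT_one : (1 : SL2) ∈ TT := by simp [TT]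
lemma TT_up : up 1 ∈ TT := by simp [TT]
lemma TT_lo : lo 1 ∈ TT := by simp [TT]

lemma TT_inv : ∀ x ∈ TT, x⁻¹ ∈ TT := by
  intro x hx
  simp only [TT, Finset.mem_insert, Finset.mem_singleton] at hx ⊢
  rcases hx with rfl | rfl | rfl | rfl | rfl
  · simp
  · right; right; left; exact up_inv 1
  · right; left; rw [up_inv]; simp
  · right; right; right; right; exact lo_inv 1
  · right; right; right; left; rw [lo_inv]; simp

/-- the ambient group -/
abbrev W := Wr SL2 (Fin 6 → ℤ)

/-- the set of steps in the ambient group -/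
def S0 : Set W := Set.range (stpT TT)

lemma S0_finite : S0.Finite := Set.finite_range _

lemma S0_inv : ∀ s ∈ S0, s⁻¹ ∈ S0 := by
  rintro _ ⟨x, rfl⟩
  rw [stpT_inv TT TT_inv]
  exact ⟨_, rfl⟩

lemma one_notin : (1 : W) ∉ S0 := by
  rintro ⟨x, hx⟩
  exact stpT_ne_one TT x hx

/-- the group -/
def K : Subgroup W := Subgroup.closure S0

lemma S0_sub {x : W} (h : x ∈ S0) : x ∈ K := Subgroup.subset_closure h

lemma lamp_mem {a : SL2} (ha : a ∈ TT) : (Wr.lamp a : W) ∈ K := by
  rw [sws_as TT TT_one a ha]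
  exact K.mul_mem (S0_sub ⟨_, rfl⟩) (K.inv_mem (S0_sub ⟨_, rfl⟩))

/-- the translation -/
def tau : Fin 6 → ℤ := sgv (fun _ => true)

lemma tr_mem : (Wr.tr tau : W) ∈ K := by
  have h : (Wr.tr tau : W) = stpT TT (⟨1, TT_one⟩, (fun _ => true), ⟨1, TT_one⟩) := by
    simp only [stpT, Wr.sws, Wr.lamp_one, mul_one, one_mul, tau]
  rw [h]
  exact S0_sub ⟨_, rfl⟩

/-- the generating set -/
def S : Set K := {g | (g : W) ∈ S0}

lemma S_finite : S.Finite := S0_finite.preimage (Subtype.val_injective.injOn)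

lemma S_inv : ∀ s ∈ S, s⁻¹ ∈ S := fun s hs => S0_inv _ hs

lemma S_gen : Subgroup.closure S = ⊤ := by
  have h : Subgroup.closure (((↑) : K → W) ⁻¹' S0) = ⊤ := Subgroup.closure_closure_coe_preimage
  exact h

/-- the steps of the lazy walk are indexed by `Option (SigT TT)` -/
noncomputable def eS : Option (SigT TT) ≃ ↥(insert 1 S : Set K) :=
  Equiv.ofBijective
    (fun o => match o with
      | none => ⟨1, Or.inl rfl⟩
      | some x => ⟨⟨stpT TT x, S0_sub ⟨x, rfl⟩⟩, Or.inr ⟨x, rfl⟩⟩)
    (by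
      constructor
      · rintro (_ | x) (_ | y) h
        · rfl
        · exfalso
          have h1 := congrArg (fun z : ↥(insert 1 S : Set K) => ((z : K) : W)) h
          exact stpT_ne_one TT y h1.symm
        · exfalso
          have h1 := congrArg (fun z : ↥(insert 1 S : Set K) => ((z : K) : W)) h
          exact stpT_ne_one TT x h1
        · have h1 := congrArg (fun z : ↥(insert 1 S : Set K) => ((z : K) : W)) h
          exact congrArg some (stpT_inj TT h1)
      · rintro ⟨g, hg | ⟨x, hx⟩⟩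
        · subst hg
          exact ⟨none, rfl⟩
        · refine ⟨some x, ?_⟩
          apply Subtype.ext
          apply Subtype.ext
          exact hx)

lemma eS_val (o : Option (SigT TT)) : (((eS o : ↥(insert 1 S : Set K)) : K) : W) =
    o.elim 1 (stpT TT) := by
  rcases o with _ | x <;> rfl

end Pool.Agent.N75.LW
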